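import Pool.Agent.R604.TC.Main

/-!
# Topological conjugacy of smooth diffeomorphisms is not reducible to an action of `S_∞`

The diffeomorphisms used are equal to the identity outside a sequence of small balls accumulating at
an arc. The ball number `i` is centred at distance `1 + 1/(i+1)` from the origin of a chart; near its
centre the diffeomorphism is a rotation of order `N i` in a coordinate plane. For odd `i` the centres
are fixed and make every point of the arc a limit of centres of balls with recognisable labels, so
that a conjugacy fixes the arc pointwise; for even `i` the position of the centre codes the real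
number `x (i/2)`. Summably close parameters give conjugate diffeomorphisms (by a twist), and the
action of `ℓ¹` on `ℝ^ℕ` is generically ergodic against `S_∞`.
-/

set_option autoImplicit false

open Set
open scoped Manifold ContDiff
open Pool.Agent.H410R3.KS

namespace Pool.Agent.Results.MP_9aeaaa_lc.ConjNotSInf

universe v

/-- The Borel structure of the Polish group `S_∞` of all permutations of `ℕ` (topology of
pointwise convergence). -/
@[reducible] def borelPerm : MeasurableSpace (Equiv.Perm ℕ) :=
  MeasurableSpace.generateFrom {U | ∃ i j : ℕ, U = {π : Equiv.Perm ℕ | π i = j}}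

/-- The action of `S_∞` on the measurable space `Z` is Borel. -/
def BorelAction (Z : Type v) [MeasurableSpace Z] [MulAction (Equiv.Perm ℕ) Z] : Prop :=
  @Measurable (Equiv.Perm ℕ × Z) Z (borelPerm.prod inferInstance) inferInstance
    (fun p => p.1 • p.2)

/-- The `C^∞` diffeomorphisms of the manifold `M` of dimension `n`. -/
abbrev DiffInf (n : ℕ) (M : Type) [TopologicalSpace M]
    [ChartedSpace (EuclideanSpace ℝ (Fin n)) M] : Type := DiffR (𝓡 n) M ⊤

/-- The Borel structure of the `C^∞` topology on `Diff^∞(M)`. -/
@[reducible] noncomputable def borelDiff (n : ℕ) (M : Type) [TopologicalSpace M]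
    [ChartedSpace (EuclideanSpace ℝ (Fin n)) M] : MeasurableSpace (DiffInf n M) :=
  @borel (DiffInf n M) (crTopology (𝓡 n) M ⊤)

/-- Let `M` be a compact smooth manifold without boundary of dimension `n ≥ 2`. Then topological
conjugacy of `C^∞` diffeomorphisms of `M` is not Borel reducible to the orbit equivalence relation
of any Borel action of `S_∞` on a standard Borel space `Z`. -/
theorem result (n : ℕ) (hn : 2 ≤ n) (M : Type) [TopologicalSpace M]
    [ChartedSpace (EuclideanSpace ℝ (Fin n)) M] [IsManifold (𝓡 n) ∞ M] [CompactSpace M]
    [T2Space M] [Nonempty M]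
    (Z : Type v) [MeasurableSpace Z] [StandardBorelSpace Z] [MulAction (Equiv.Perm ℕ) Z]
    (hZ : BorelAction Z) :
    ¬ ∃ f : DiffInf n M → Z, @Measurable _ _ (borelDiff n M) _ f ∧
      ∀ S T : DiffInf n M, TopConj S.map T.map ↔ ∃ π : Equiv.Perm ℕ, π • f S = f T := by
  let L : Pool.Agent.R604.TC.Pl (EuclideanSpace ℝ (Fin n)) :=
    { a := EuclideanSpace.single ⟨0, by omega⟩ 1
      b := EuclideanSpace.single ⟨1, by omega⟩ 1
      na := by simp
      nb := by simp
      ab := by simp [EuclideanSpace.inner_single_left] }
  exact Pool.Agent.R604.TC.main L Z hZ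

end Pool.Agent.Results.MP_9aeaaa_lc.ConjNotSInf
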